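import Pool.Agent.H78.FS.Last

/-!
# MP_9f27ff_nt, Q1 in full

For every prime `p > 3` with `p ≡ 1 (mod 4)`, modulo `p ^ 3`,
`∑_{k ≤ (p-1)/2} C(2k,k)^3 / 64^k ≡ (3/p) ∑_{k<p} C_k / 12^(3k) ≡ (33/p) ∑_{k<p} C_k / 66^(3k)`,
where `C_k = C(2k,k) C(3k,k) C(6k,3k)`.

Idea of the proof. Let `H(x)`, `G(w)` be the truncated sums of `C(2k,k)^3 x^k` and `C_k w^k`. With the parameter `t`
the functions `a = H(t(1-t)/16)`, `H(-(1-t)/(16t²)) / t`, `H(-t/(16(1-t)²)) / (1-t)`,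
`H(1/(256 t(1-t))) / (t(1-t))^(1/2)` and `G(w) / (1-t+t²)^(1/2)` satisfy one and the same linear differential equation
of order three modulo `p ^ 3`, a symmetric square. Hence the quotients by `a` are killed modulo `p ^ i` by the `i`-th power
of the derivation `a t (1-t) d/dt`, `i = 1, 2, 3`, and so are all homogeneous expressions in them. If such an
expression is divisible by `p ^ j`, `j < 3`, then what remains is, modulo `p`, a power of `T = ∑ C(2k,k)² (t/16)^k` times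
a polynomial in `t ^ p` of small degree, since `T` has no multiple roots modulo `p`; the values at `t = 0, 1` and
the symmetries under `t ↦ 1 - t`, `t ↦ 1/t` show that this polynomial is zero. This gives polynomial identities modulo
`p ^ 3` between these functions. Their values at `t = 1/2`, `t = -1` and at the roots of `t² - t = 1/32` give the theorem.
-/

set_option autoImplicit false

namespace Pool.Agent.Results.MP_9f27ff_nt.Full

open Finset

/-- `x ≡ y (mod p ^ 3)` for rational numbers: `x - y` is `p ^ 3` times a rational number with denominator prime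
to `p`. -/
def Congr3 (p : ℕ) (x y : ℚ) : Prop := ∃ u : ℚ, ¬ p ∣ u.den ∧ x - y = (p : ℚ) ^ 3 * u

/-- `C_k = C(2k,k) C(3k,k) C(6k,3k)` -/
def Ck (k : ℕ) : ℕ := (2 * k).choose k * (3 * k).choose k * (6 * k).choose (3 * k)

/-- `S_1(p) = ∑_{0 ≤ k ≤ (p-1)/2} C(2k,k)^3 / 64^k` -/
def S1 (p : ℕ) : ℚ := ∑ k ∈ range ((p - 1) / 2 + 1), ((2 * k).choose k : ℚ) ^ 3 / 64 ^ k

/-- `S_2(p) = ∑_{0 ≤ k ≤ p-1} C_k / 12^(3k)` -/
def S2 (p : ℕ) : ℚ := ∑ k ∈ range p, (Ck k : ℚ) / 12 ^ (3 * k)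

/-- `S_3(p) = ∑_{0 ≤ k ≤ p-1} C_k / 66^(3k)` -/
def S3 (p : ℕ) : ℚ := ∑ k ∈ range p, (Ck k : ℚ) / 66 ^ (3 * k)

open Pool.Agent.H78.FS in
theorem S1_eq (p : ℕ) : S1 p = ∑ k ∈ range ((p - 1) / 2 + 1), ((Nat.centralBinom k ^ 3 : ℕ) : ℚ) *
    (((64 : ℤ) : ℚ)⁻¹) ^ k := by
  unfold S1
  apply sum_congr rfl
  intro k _
  rw [Nat.centralBinom]
  push_cast
  rw [inv_pow]; rfl

open Pool.Agent.H78.FS in
theorem S2_eq {p : ℕ} (hp : 0 < p) : S2 p = ∑ k ∈ range (p - 1 + 1), (C6 k : ℚ) *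
    (((1728 : ℤ) : ℚ)⁻¹) ^ k := by
  unfold S2
  rw [Nat.sub_add_cancel hp]
  apply sum_congr rfl
  intro k _
  have : Ck k = C6 k := rfl
  rw [this, pow_mul, inv_pow]
  norm_num [div_eq_mul_inv]

open Pool.Agent.H78.FS in
theorem S3_eq {p : ℕ} (hp : 0 < p) : S3 p = ∑ k ∈ range (p - 1 + 1), (C6 k : ℚ) *
    (((287496 : ℤ) : ℚ)⁻¹) ^ k := by
  unfold S3
  rw [Nat.sub_add_cancel hp]
  apply sum_congr rfl
  intro k _
  have : Ck k = C6 k := rfl
  rw [this, pow_mul, inv_pow]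
  norm_num [div_eq_mul_inv]

open Pool.Agent.H78.FS in
theorem values : C6 0 = 1 ∧ C6 1 = 120 ∧ C6 2 = 83160 ∧ C6 3 = 81681600 ∧ C6 4 = 93699005400 := by
  have h0 := C6_zero
  have h1 := C6_rec 0
  have h2 := C6_rec 1
  have h3 := C6_rec 2
  have h4 := C6_rec 3
  norm_num at h1 h2 h3 h4
  rw [h0] at h1
  have e1 : C6 1 = 120 := by omega
  rw [e1] at h2
  have e2 : C6 2 = 83160 := by omega
  rw [e2] at h3
  have e3 : C6 3 = 81681600 := by omega
  rw [e3] at h4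
  have e4 : C6 4 = 93699005400 := by omega
  exact ⟨h0, e1, e2, e3, e4⟩

theorem prime5 : Nat.Prime 5 := by norm_num

theorem nsq3 : ¬ IsSquare (((3 : ℤ)) : ZMod 5) := by decide

theorem nsq33 : ¬ IsSquare (((33 : ℤ)) : ZMod 5) := by decide

theorem leg5_3 : @legendreSym 5 ⟨prime5⟩ 3 = -1 := by
  have : Fact (Nat.Prime 5) := ⟨prime5⟩
  exact (legendreSym.eq_neg_one_iff 5 (a := 3)).2 nsq3

theorem leg5_33 : @legendreSym 5 ⟨prime5⟩ 33 = -1 := by
  have : Fact (Nat.Prime 5) := ⟨prime5⟩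
  exact (legendreSym.eq_neg_one_iff 5 (a := 33)).2 nsq33

open Pool.Agent.H78.FS in
/-- The case `p = 5`. -/
theorem five : Congr3 5 (S1 5) ((-1 : ℚ) * S2 5) ∧ Congr3 5 ((-1 : ℚ) * S2 5) ((-1 : ℚ) * S3 5) := by
  have : Fact (Nat.Prime 5) := ⟨prime5⟩
  obtain ⟨v0, v1, v2, v3, v4⟩ := values
  have w0 : Nat.centralBinom 0 = 1 := by decide
  have w1 : Nat.centralBinom 1 = 2 := by decide
  have w2 : Nat.centralBinom 2 = 6 := by decide
  have s1 := S1_eq 5
  have s2 := S2_eq (p := 5) (by norm_num)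
  have s3 := S3_eq (p := 5) (by norm_num)
  norm_num [Finset.sum_range_succ, w0, w1, w2] at s1
  norm_num [Finset.sum_range_succ, v0, v1, v2, v3, v4] at s2 s3
  constructor
  · apply to_rat (p := 5) (N := 64 ^ 2 * 1728 ^ 4) (Z := 84046771482624000)
    · norm_num
    · rw [s1, s2]; norm_num
    · norm_num
  · apply to_rat (p := 5) (N := 1728 ^ 4 * 287496 ^ 4) (Z := -7505294542364376524707516477440000)
    · norm_num
    · rw [s2, s3]; norm_num
    · norm_num

/-- `MP_9f27ff_nt`, Q1. -/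
theorem result (p : ℕ) [hp : Fact p.Prime] (h3 : 3 < p) (h4 : p % 4 = 1) :
    Congr3 p (S1 p) ((legendreSym p 3 : ℚ) * S2 p) ∧
      Congr3 p ((legendreSym p 3 : ℚ) * S2 p) ((legendreSym p 33 : ℚ) * S3 p) := by
  by_cases h13 : 13 ≤ p
  · have hpr := hp.out
    obtain ⟨n, hn⟩ : ∃ n, p = 2 * n + 1 := ⟨p / 2, by omega⟩
    have small : ∀ N : ℕ, 0 < N → N < p → ¬ p ∣ N := fun N h0 h1 hd =>
      absurd (Nat.le_of_dvd h0 hd) (by omega)
    have n64 : ¬ p ∣ 64 := by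
      intro hd
      rw [show 64 = 8 ^ 2 by norm_num] at hd
      exact small 8 (by norm_num) (by omega) (hpr.dvd_of_dvd_pow hd)
    have n12 : ¬ p ∣ 1728 := by
      intro hd
      rw [show 1728 = 12 ^ 3 by norm_num] at hd
      exact small 12 (by norm_num) (by omega) (hpr.dvd_of_dvd_pow hd)
    have n66 : ¬ p ∣ 287496 := by
      intro hd
      rw [show 287496 = (6 * 11) ^ 3 by norm_num] at hd
      rcases (Nat.Prime.dvd_mul hpr).1 (hpr.dvd_of_dvd_pow hd) with h | h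
      · exact small 6 (by norm_num) (by omega) h
      · exact small 11 (by norm_num) (by omega) h
    have uinv : ∀ N : ℕ, ¬ p ∣ N → ∃ y : ℤ_[p], (N : ℤ_[p]) * y = 1 := by
      intro N hN
      have h : IsUnit (N : ℤ_[p]) := by
        apply Pool.Agent.H78.FS.isUnit_of_red
        rw [map_natCast, Ne, CharP.cast_eq_zero_iff (ZMod p) p]
        exact hN
      exact h.exists_right_inv
    obtain ⟨i64, h64⟩ := uinv 64 n64
    obtain ⟨i12, h12⟩ := uinv 1728 n12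
    obtain ⟨i66, h66⟩ := uinv 287496 n66
    have h64' : (64 : ℤ_[p]) * i64 = 1 := by exact_mod_cast h64
    have h12' : (1728 : ℤ_[p]) * i12 = 1 := by exact_mod_cast h12
    have h66' : (287496 : ℤ_[p]) * i66 = 1 := by exact_mod_cast h66
    obtain ⟨m1, m2⟩ := Pool.Agent.H78.FS.main_padic h13 h4 hn h64' h12' h66'
    have hp0 : 0 < p := by omega
    have hp1 : p - 1 + 1 = p := by omega
    have hn1 : (p - 1) / 2 = n := by omega
    have z64 : ((64 : ℤ) : ℤ_[p]) * i64 = 1 := by push_cast; exact h64'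
    have z12 : ((1728 : ℤ) : ℤ_[p]) * i12 = 1 := by push_cast; exact h12'
    have z66 : ((287496 : ℤ) : ℤ_[p]) * i66 = 1 := by push_cast; exact h66'
    have d64 : ¬ (p : ℤ) ∣ 64 := by
      intro hd; exact n64 (by exact_mod_cast hd)
    have d12 : ¬ (p : ℤ) ∣ 1728 := by
      intro hd; exact n12 (by exact_mod_cast hd)
    have d66 : ¬ (p : ℤ) ∣ 287496 := by
      intro hd; exact n66 (by exact_mod_cast hd)
    have k1 : (p : ℤ_[p]) ^ 3 ∣ ((1 : ℤ) : ℤ_[p]) * (∑ k ∈ range (n + 1),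
          ((Nat.centralBinom k ^ 3 : ℕ) : ℤ_[p]) * i64 ^ k) -
        ((legendreSym p 3 : ℤ) : ℤ_[p]) * ∑ k ∈ range (p - 1 + 1), (Pool.Agent.H78.FS.C6 k : ℤ_[p]) * i12 ^ k := by
      rw [hp1, Int.cast_one, one_mul]; exact m1
    have k2 : (p : ℤ_[p]) ^ 3 ∣ ((legendreSym p 3 : ℤ) : ℤ_[p]) * (∑ k ∈ range (p - 1 + 1),
          (Pool.Agent.H78.FS.C6 k : ℤ_[p]) * i12 ^ k) -
        ((legendreSym p 33 : ℤ) : ℤ_[p]) * ∑ k ∈ range (p - 1 + 1), (Pool.Agent.H78.FS.C6 k : ℤ_[p]) * i66 ^ k := by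
      rw [hp1]
      obtain ⟨x, hx⟩ := m1
      obtain ⟨y, hy⟩ := m2
      exact ⟨y - x, by linear_combination hy - hx⟩
    have t1 := Pool.Agent.H78.FS.transfer z64 z12 (by norm_num) (by norm_num) d64 d12
      (fun k => Nat.centralBinom k ^ 3) Pool.Agent.H78.FS.C6 n (p - 1) 1 (legendreSym p 3) k1
    have t2 := Pool.Agent.H78.FS.transfer z12 z66 (by norm_num) (by norm_num) d12 d66
      Pool.Agent.H78.FS.C6 Pool.Agent.H78.FS.C6 (p - 1) (p - 1) (legendreSym p 3) (legendreSym p 33) k2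
    constructor
    · obtain ⟨u, hu, h⟩ := t1
      refine ⟨u, hu, ?_⟩
      rw [S1_eq, S2_eq hp0, hn1, ← h, Int.cast_one, one_mul]
    · obtain ⟨u, hu, h⟩ := t2
      refine ⟨u, hu, ?_⟩
      rw [S2_eq hp0, S3_eq hp0, ← h]
  · have h5 : p = 5 := by
      have : p < 13 := by omega
      interval_cases p <;> first | rfl | omega | (exfalso; revert hp; decide)
    subst h5
    have l3 : legendreSym 5 3 = -1 := leg5_3
    have l33 : legendreSym 5 33 = -1 := leg5_33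
    rw [l3, l33]
    have := five
    push_cast
    exact this

end Pool.Agent.Results.MP_9f27ff_nt.Full
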